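import Mathlib
import Pool.Agent.helper50.MD.Main

/-!
# The number of shifted triples up to N is at most N ^ (1 / 2 + ε)

The number of triples `(a, b, c)` of pairwise distinct integers in `[2, N]` such that both
`(a, b, c)` and `(a + 1, b + 1, c + 1)` are 3-multiplicatively dependent is
`O(N ^ (1 / 2 + ε))` for every `ε > 0`.
-/

set_option autoImplicit false

namespace Pool.Agent.Results.MP_e72373_nt.CountUpTo

/-- The pair `(a, b)` is multiplicatively dependent. -/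
def DependentPair (a b : ℕ) : Prop :=
  ∃ r s : ℤ, (r ≠ 0 ∨ s ≠ 0) ∧ (a : ℚ) ^ r * (b : ℚ) ^ s = 1

/-- `a ^ r * b ^ s * c ^ t = 1` is a nontrivial multiplicative relation of `(a, b, c)`. -/
def IsRelation (a b c : ℕ) (r s t : ℤ) : Prop :=
  (r ≠ 0 ∨ s ≠ 0 ∨ t ≠ 0) ∧ (a : ℚ) ^ r * (b : ℚ) ^ s * (c : ℚ) ^ t = 1

/-- The triple `(a, b, c)` is 3-multiplicatively dependent. -/
def ThreeDependent (a b c : ℕ) : Prop :=
  (∃ r s t : ℤ, IsRelation a b c r s t) ∧
    ¬ DependentPair a b ∧ ¬ DependentPair a c ∧ ¬ DependentPair b c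

/-- The triples of the problem: pairwise distinct integers `a, b, c ≥ 2` such that both
`(a, b, c)` and `(a + 1, b + 1, c + 1)` are 3-multiplicatively dependent. -/
def IsTriple (a b c : ℕ) : Prop :=
  2 ≤ a ∧ 2 ≤ b ∧ 2 ≤ c ∧ a ≠ b ∧ a ≠ c ∧ b ≠ c ∧ ThreeDependent a b c ∧
    ThreeDependent (a + 1) (b + 1) (c + 1)

open Pool.Agent.MD50

theorem nonzero {a b c : ℕ} {r s t : ℤ} (h : IsRelation a b c r s t) (hab : ¬ DependentPair a b)
    (hac : ¬ DependentPair a c) (hbc : ¬ DependentPair b c) : r ≠ 0 ∧ s ≠ 0 ∧ t ≠ 0 := by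
  obtain ⟨h0, h1⟩ := h
  refine ⟨?_, ?_, ?_⟩
  · rintro rfl
    apply hbc
    rw [zpow_zero, one_mul] at h1
    refine ⟨s, t, ?_, h1⟩
    rcases h0 with h0 | h0
    · exact absurd rfl h0
    · exact h0
  · rintro rfl
    apply hac
    rw [zpow_zero, mul_one] at h1
    refine ⟨r, t, ?_, h1⟩
    rcases h0 with h0 | h0 | h0
    · exact Or.inl h0
    · exact absurd rfl h0
    · exact Or.inr h0
  · rintro rfl
    apply hab
    rw [zpow_zero, mul_one] at h1
    refine ⟨r, s, ?_, h1⟩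
    rcases h0 with h0 | h0 | h0
    · exact Or.inl h0
    · exact Or.inr h0
    · exact absurd rfl h0

theorem toR3 {a b c : ℕ} (ha : 2 ≤ a) (hb : 2 ≤ b) (hc : 2 ≤ c) (h : ThreeDependent a b c) :
    R3 a b c := by
  obtain ⟨⟨r, s, t, hr⟩, hab, hac, hbc⟩ := h
  obtain ⟨h1, h2, h3⟩ := nonzero hr hab hac hbc
  rcases signs ha hb hc h1 h2 h3 hr.2 with h | h | h
  · exact Or.inl ⟨_, _, _, one_le_natAbs h1, one_le_natAbs h2, one_le_natAbs h3, h⟩
  · exact Or.inr (Or.inl ⟨_, _, _, one_le_natAbs h2, one_le_natAbs h1, one_le_natAbs h3, h⟩)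
  · exact Or.inr (Or.inr ⟨_, _, _, one_le_natAbs h3, one_le_natAbs h1, one_le_natAbs h2, h⟩)

open Classical in
/-- **Main theorem.** For every `ε > 0` there is `C` such that for every `N` at most
`C * N ^ (1 / 2 + ε)` triples of the problem have all their entries in `[2, N]`. -/
theorem result : ∀ ε : ℝ, 0 < ε → ∃ C : ℝ, ∀ N : ℕ,
    (((Finset.Icc 2 N ×ˢ Finset.Icc 2 N ×ˢ Finset.Icc 2 N).filter fun t : ℕ × ℕ × ℕ =>
      IsTriple t.1 t.2.1 t.2.2).card : ℝ) ≤ C * (N : ℝ) ^ (1 / 2 + ε) := by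
  intro ε hε
  obtain ⟨C, -, h⟩ := countA ε hε
  refine ⟨C, fun N => h N _ (Finset.filter_subset _ _) ?_⟩
  intro t ht
  rw [Finset.mem_filter] at ht
  obtain ⟨-, ha, hb, hc, hab, hac, hbc, h1, h2⟩ := ht
  exact arrangeA hab hac hbc (toR3 ha hb hc h1) (toR3 (by omega) (by omega) (by omega) h2)

end Pool.Agent.Results.MP_e72373_nt.CountUpTo
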