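import Mathlib
import Pool.Agent.helper50.MD.Entry2

/-!
# The number of shifted triples with a given entry

For every `ε > 0` there is `C` such that for all `N` and `m` the number of triples of the problem
which have `m` as an entry and all entries in `[2, N]` is at most `C * N ^ ε`.
-/

set_option autoImplicit false

namespace Pool.Agent.Results.MP_e72373_nt.GivenEntry

/-- The pair `(a, b)` is multiplicatively dependent. -/
def DependentPair (a b : ℕ) : Prop :=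
  ∃ r s : ℤ, (r ≠ 0 ∨ s ≠ 0) ∧ (a : ℚ) ^ r * (b : ℚ) ^ s = 1

/-- `a ^ r * b ^ s * c ^ t = 1` is a nontrivial multiplicative relation of `(a, b, c)`. -/
def IsRelation (a b c : ℕ) (r s t : ℤ) : Prop :=
  (r ≠ 0 ∨ s ≠ 0 ∨ t ≠ 0) ∧ (a : ℚ) ^ r * (b : ℚ) ^ s * (c : ℚ) ^ t = 1

/-- The triple `(a, b, c)` is 3-multiplicatively dependent. -/
def ThreeDependent (a b c : ℕ) : Prop :=
  (∃ r s t : ℤ, IsRelation a b c r s t) ∧
    ¬ DependentPair a b ∧ ¬ DependentPair a c ∧ ¬ DependentPair b c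

/-- The triples of the problem: pairwise distinct integers `a, b, c ≥ 2` such that both
`(a, b, c)` and `(a + 1, b + 1, c + 1)` are 3-multiplicatively dependent. -/
def IsTriple (a b c : ℕ) : Prop :=
  2 ≤ a ∧ 2 ≤ b ∧ 2 ≤ c ∧ a ≠ b ∧ a ≠ c ∧ b ≠ c ∧ ThreeDependent a b c ∧
    ThreeDependent (a + 1) (b + 1) (c + 1)

/-- Auxiliary (used in the proof only): the triple `(a, b, c)` has a nontrivial multiplicative
relation all of whose exponents have absolute value at most `B`. -/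
def BoundedRelation (B a b c : ℕ) : Prop :=
  ∃ r s t : ℤ, IsRelation a b c r s t ∧ |r| ≤ B ∧ |s| ≤ B ∧ |t| ≤ B

open Pool.Agent.MD50

theorem nonzero {a b c : ℕ} {r s t : ℤ} (h : IsRelation a b c r s t) (hab : ¬ DependentPair a b)
    (hac : ¬ DependentPair a c) (hbc : ¬ DependentPair b c) : r ≠ 0 ∧ s ≠ 0 ∧ t ≠ 0 := by
  obtain ⟨h0, h1⟩ := h
  refine ⟨?_, ?_, ?_⟩
  · rintro rfl
    apply hbc
    rw [zpow_zero, one_mul] at h1
    refine ⟨s, t, ?_, h1⟩
    rcases h0 with h0 | h0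
    · exact absurd rfl h0
    · exact h0
  · rintro rfl
    apply hac
    rw [zpow_zero, mul_one] at h1
    refine ⟨r, t, ?_, h1⟩
    rcases h0 with h0 | h0 | h0
    · exact Or.inl h0
    · exact absurd rfl h0
    · exact Or.inr h0
  · rintro rfl
    apply hab
    rw [zpow_zero, mul_one] at h1
    refine ⟨r, s, ?_, h1⟩
    rcases h0 with h0 | h0 | h0
    · exact Or.inl h0
    · exact Or.inr h0
    · exact absurd rfl h0

theorem toR3 {a b c : ℕ} (ha : 2 ≤ a) (hb : 2 ≤ b) (hc : 2 ≤ c) (h : ThreeDependent a b c) :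
    R3 a b c := by
  obtain ⟨⟨r, s, t, hr⟩, hab, hac, hbc⟩ := h
  obtain ⟨h1, h2, h3⟩ := nonzero hr hab hac hbc
  rcases signs ha hb hc h1 h2 h3 hr.2 with h | h | h
  · exact Or.inl ⟨_, _, _, one_le_natAbs h1, one_le_natAbs h2, one_le_natAbs h3, h⟩
  · exact Or.inr (Or.inl ⟨_, _, _, one_le_natAbs h2, one_le_natAbs h1, one_le_natAbs h3, h⟩)
  · exact Or.inr (Or.inr ⟨_, _, _, one_le_natAbs h3, one_le_natAbs h1, one_le_natAbs h2, h⟩)

/-- every prime divisor of one of the three numbers divides one of the others -/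
theorem cover {a b c : ℕ} (ha : 2 ≤ a) (hb : 2 ≤ b) (hc : 2 ≤ c) (h : R3 a b c) :
    a.primeFactors ⊆ b.primeFactors ∪ c.primeFactors ∧
      b.primeFactors ⊆ a.primeFactors ∪ c.primeFactors ∧
      c.primeFactors ⊆ a.primeFactors ∪ b.primeFactors := by
  rcases h with h | h | h
  · have p := h.pf (by omega) (by omega)
    refine ⟨p.le, ?_, ?_⟩
    · rw [p]
      exact Finset.subset_union_left.trans Finset.subset_union_left
    · rw [p]
      exact Finset.subset_union_right.trans Finset.subset_union_left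
  · have p := h.pf (by omega) (by omega)
    refine ⟨?_, p.le, ?_⟩
    · rw [p]
      exact Finset.subset_union_left.trans Finset.subset_union_left
    · rw [p]
      exact Finset.subset_union_right.trans Finset.subset_union_right
  · have p := h.pf (by omega) (by omega)
    refine ⟨?_, ?_, p.le⟩
    · rw [p]
      exact Finset.subset_union_left.trans Finset.subset_union_right
    · rw [p]
      exact Finset.subset_union_right.trans Finset.subset_union_right

theorem indep {x y : ℕ} (hy : 2 ≤ y) (h : ¬ DependentPair x y) : Indep x y := by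
  intro i j hj he
  apply h
  refine ⟨i, -(j : ℤ), Or.inr (by omega), ?_⟩
  have hy0 : (y : ℚ) ^ j ≠ 0 := pow_ne_zero _ (by exact_mod_cast (by omega : y ≠ 0))
  rw [zpow_natCast, zpow_neg, zpow_natCast]
  have : (x : ℚ) ^ i = (y : ℚ) ^ j := by exact_mod_cast he
  rw [this, mul_inv_cancel₀ hy0]

theorem indep' {x y : ℕ} (hy : 2 ≤ y) (h : ¬ DependentPair x y) : Indep y x := by
  intro i j hj he
  apply h
  refine ⟨j, -(i : ℤ), Or.inl (by omega), ?_⟩
  have hy0 : (y : ℚ) ^ i ≠ 0 := pow_ne_zero _ (by exact_mod_cast (by omega : y ≠ 0))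
  rw [zpow_natCast, zpow_neg, zpow_natCast]
  have : (x : ℚ) ^ j = (y : ℚ) ^ i := by exact_mod_cast he.symm
  rw [this, mul_inv_cancel₀ hy0]

theorem rat_rel {x y z α β γ : ℕ} (hy : 2 ≤ y) (hz : 2 ≤ z) (h : x ^ α = y ^ β * z ^ γ) :
    (x : ℚ) ^ (α : ℤ) * (y : ℚ) ^ (-(β : ℤ)) * (z : ℚ) ^ (-(γ : ℤ)) = 1 := by
  have hy0 : (y : ℚ) ^ β ≠ 0 := pow_ne_zero _ (by exact_mod_cast (by omega : y ≠ 0))
  have hz0 : (z : ℚ) ^ γ ≠ 0 := pow_ne_zero _ (by exact_mod_cast (by omega : z ≠ 0))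
  have h1 : (x : ℚ) ^ α = (y : ℚ) ^ β * (z : ℚ) ^ γ := by exact_mod_cast h
  rw [zpow_natCast, zpow_neg, zpow_natCast, zpow_neg, zpow_natCast, h1]
  field_simp

theorem abs_nat_le {B n : ℕ} (h : n ≤ B) : |(n : ℤ)| ≤ B ∧ |(-(n : ℤ))| ≤ B := by
  rw [abs_neg, Nat.abs_cast]
  exact ⟨by exact_mod_cast h, by exact_mod_cast h⟩

/-- the three arrangements of a primitive relation with a large exponent -/
theorem big3 {B a b c : ℕ} (ha : 2 ≤ a) (hb : 2 ≤ b) (hc : 2 ≤ c) (h : ThreeDependent a b c)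
    (hB : ¬ BoundedRelation B a b c) : BigRel B a b c ∨ BigRel B b a c ∨ BigRel B c a b := by
  rcases toR3 ha hb hc h with h | h | h
  · obtain ⟨α, β, γ, h1, h2, h3, h4, h5⟩ := prim h
    refine Or.inl ⟨α, β, γ, h1, h2, h3, h4, ?_, h5⟩
    by_contra hcon
    push Not at hcon
    apply hB
    exact ⟨α, -(β : ℤ), -(γ : ℤ), ⟨Or.inl (by omega), rat_rel hb hc h5⟩, (abs_nat_le hcon.1).1,
      (abs_nat_le hcon.2.1).2, (abs_nat_le hcon.2.2).2⟩
  · obtain ⟨α, β, γ, h1, h2, h3, h4, h5⟩ := prim h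
    refine Or.inr (Or.inl ⟨α, β, γ, h1, h2, h3, h4, ?_, h5⟩)
    by_contra hcon
    push Not at hcon
    apply hB
    refine ⟨-(β : ℤ), α, -(γ : ℤ), ⟨Or.inr (Or.inl (by omega)), ?_⟩, (abs_nat_le hcon.2.1).2,
      (abs_nat_le hcon.1).1, (abs_nat_le hcon.2.2).2⟩
    rw [mul_comm ((a : ℚ) ^ (-(β : ℤ)))]
    exact rat_rel ha hc h5
  · obtain ⟨α, β, γ, h1, h2, h3, h4, h5⟩ := prim h
    refine Or.inr (Or.inr ⟨α, β, γ, h1, h2, h3, h4, ?_, h5⟩)
    by_contra hcon
    push Not at hcon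
    apply hB
    refine ⟨-(β : ℤ), -(γ : ℤ), α, ⟨Or.inr (Or.inr (by omega)), ?_⟩, (abs_nat_le hcon.2.1).2,
      (abs_nat_le hcon.2.2).2, (abs_nat_le hcon.1).1⟩
    have := rat_rel ha hb h5
    rw [mul_assoc, mul_comm] at this
    exact this

/-- the three arrangements of a relation with bounded exponents -/
theorem toB3 {B a b c : ℕ} (ha : 2 ≤ a) (hb : 2 ≤ b) (hc : 2 ≤ c) (h : ThreeDependent a b c)
    (hB : BoundedRelation B a b c) : B3 B a b c := by
  obtain ⟨-, hab, hac, hbc⟩ := h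
  obtain ⟨r, s, t, hr, h4, h5, h6⟩ := hB
  obtain ⟨h1, h2, h3⟩ := nonzero hr hab hac hbc
  have b1 : r.natAbs ≤ B := by
    rw [Int.abs_eq_natAbs] at h4
    exact_mod_cast h4
  have b2 : s.natAbs ≤ B := by
    rw [Int.abs_eq_natAbs] at h5
    exact_mod_cast h5
  have b3 : t.natAbs ≤ B := by
    rw [Int.abs_eq_natAbs] at h6
    exact_mod_cast h6
  rcases signs ha hb hc h1 h2 h3 hr.2 with h | h | h
  · exact Or.inl ⟨_, _, _, one_le_natAbs h1, one_le_natAbs h2, one_le_natAbs h3, b2, b3, h⟩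
  · exact Or.inr (Or.inl ⟨_, _, _, one_le_natAbs h2, one_le_natAbs h1, one_le_natAbs h3, b1, b3, h⟩)
  · exact Or.inr (Or.inr ⟨_, _, _, one_le_natAbs h3, one_le_natAbs h1, one_le_natAbs h2, b1, b2, h⟩)

open Classical in
/-- **Main theorem.** For every `ε > 0` there is `C` such that for all `N` and `m` at most
`C * N ^ ε` of the triples of the problem with entries in `[2, N]` have `m` as an entry. -/
theorem result : ∀ ε : ℝ, 0 < ε → ∃ C : ℝ, ∀ N m : ℕ,
    (((Finset.Icc 2 N ×ˢ Finset.Icc 2 N ×ˢ Finset.Icc 2 N).filter fun t : ℕ × ℕ × ℕ =>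
      IsTriple t.1 t.2.1 t.2.2 ∧ (t.1 = m ∨ t.2.1 = m ∨ t.2.2 = m)).card : ℝ) ≤
      C * (N : ℝ) ^ ε := by
  intro ε hε
  obtain ⟨K, C1, -, h⟩ := countU ε hε
  obtain ⟨C2, -, h'⟩ := countE (K ^ 2) ε hε
  refine ⟨C1 + C2, fun N m => ?_⟩
  set T : Finset (ℕ × ℕ × ℕ) := (Finset.Icc 2 N ×ˢ Finset.Icc 2 N ×ˢ Finset.Icc 2 N).filter
    fun t : ℕ × ℕ × ℕ => IsTriple t.1 t.2.1 t.2.2 ∧ (t.1 = m ∨ t.2.1 = m ∨ t.2.2 = m) with hT
  have e1 : ((T.filter fun t => ¬ BoundedRelation (K ^ 2) t.1 t.2.1 t.2.2).card : ℝ) ≤ C1 * (N : ℝ) ^ ε := by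
    refine h N _ ((Finset.filter_subset _ _).trans (Finset.filter_subset _ _)) ?_
    intro t ht
    rw [Finset.mem_filter, hT, Finset.mem_filter] at ht
    obtain ⟨⟨-, ⟨ha, hb, hc, hab, hac, hbc, h1, h2⟩, -⟩, hB⟩ := ht
    have c2 := cover (by omega) (by omega) (by omega) (toR3 (by omega) (by omega) (by omega) h2)
    have hh := big3 ha hb hc h1 hB
    obtain ⟨-, i1, i2, i3⟩ := h1
    rcases hh with h | h | h
    · exact Or.inl (Or.inl ⟨h, indep hb i1, indep hc i2, c2.1⟩)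
    · exact Or.inr (Or.inl (Or.inl ⟨h, indep' hb i1, indep hc i3, c2.2.1⟩))
    · exact Or.inr (Or.inr (Or.inl ⟨h, indep' hc i2, indep' hc i3, c2.2.2⟩))
  have e2 : ((T.filter fun t => BoundedRelation (K ^ 2) t.1 t.2.1 t.2.2).card : ℝ) ≤ C2 * (N : ℝ) ^ ε := by
    refine h' N m _ ((Finset.filter_subset _ _).trans (Finset.filter_subset _ _)) ?_
    intro t ht
    rw [Finset.mem_filter, hT, Finset.mem_filter] at ht
    obtain ⟨⟨-, ⟨ha, hb, hc, hab, hac, hbc, h1, h2⟩, hm⟩, hB⟩ := ht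
    exact ⟨arrangeE (toB3 ha hb hc h1 hB) (toR3 (by omega) (by omega) (by omega) h2), hm⟩
  have e3 : (T.card : ℝ) = ((T.filter fun t => BoundedRelation (K ^ 2) t.1 t.2.1 t.2.2).card : ℝ) +
      ((T.filter fun t => ¬ BoundedRelation (K ^ 2) t.1 t.2.1 t.2.2).card : ℝ) := by
    exact_mod_cast (Finset.card_filter_add_card_filter_not (s := T)
      (fun t => BoundedRelation (K ^ 2) t.1 t.2.1 t.2.2)).symm
  rw [e3]
  linarith

end Pool.Agent.Results.MP_e72373_nt.GivenEntry
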