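import Mathlib

set_option autoImplicit false

/-!
# MP_e72373_nt: consecutive shifted triples which are 3-multiplicatively dependent

Let `(a, b, c)` and `(a + 1, b + 1, c + 1)` be 3-multiplicatively dependent. Every relation has one of the three elements alone on
one side. We prove: if `c` is a common multiple of `a` and `b` with `max a b < c ≤ a b` (for instance `c = a b`), then it is not
`c + 1` which is alone in the relation of the shifted triple; dually, if `c + 1 = (a + 1) (b + 1)`, then it is not `c` which is alone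
in the relation of the triple. No assumption on the other triple is used.
-/

namespace Pool.Agent.Results.MP_e72373_nt.LargestNotIsolated

/-- The integers `a`, `b` are multiplicatively dependent: `a ^ e * b ^ f = 1` for some integers `e`, `f`, not both zero. -/
def Dep2 (a b : ℕ) : Prop := ∃ e f : ℤ, ¬ (e = 0 ∧ f = 0) ∧ (a : ℚ) ^ e * (b : ℚ) ^ f = 1

/-- The integers `a`, `b`, `c` are multiplicatively dependent. -/
def Dep3 (a b c : ℕ) : Prop :=
  ∃ e f g : ℤ, ¬ (e = 0 ∧ f = 0 ∧ g = 0) ∧ (a : ℚ) ^ e * (b : ℚ) ^ f * (c : ℚ) ^ g = 1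

/-- The triple `(a, b, c)` is 3-multiplicatively dependent: it is multiplicatively dependent, and its pairs are multiplicatively
independent. -/
def IsDependentTriple (a b c : ℕ) : Prop := Dep3 a b c ∧ ¬ Dep2 a b ∧ ¬ Dep2 a c ∧ ¬ Dep2 b c

/-- `u` is alone on one side of a relation between `u`, `v`, `w`: `u ^ r = v ^ s * w ^ t` with positive exponents. -/
def Alone (u v w : ℕ) : Prop := ∃ r s t : ℕ, 0 < r ∧ 0 < s ∧ 0 < t ∧ u ^ r = v ^ s * w ^ t

theorem dvd_mul_of_pow {X Y W R S T : ℕ} (hT : 0 < T) (hR : R ≤ T) (hS : S ≤ T)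
    (h : W ^ T = X ^ R * Y ^ S) : W ∣ X * Y := by
  have h1 : W ^ T ∣ (X * Y) ^ T := by
    rw [h, mul_pow]
    exact mul_dvd_mul (pow_dvd_pow _ hR) (pow_dvd_pow _ hS)
  exact (Nat.pow_dvd_pow_iff hT.ne').1 h1

theorem caseB {x y z R S T : ℕ} (hx : 2 ≤ x) (hxy : x ≤ y) (hy : y ∣ z) (hyz : y < z)
    (hT : 0 < T) (hR : R ≤ T) (hS : S ≤ T) (hlt : z + 1 < (x + 1) * (y + 1))
    (h : (z + 1) ^ T = (x + 1) ^ R * (y + 1) ^ S) : False := by
  obtain ⟨k, hk⟩ := dvd_mul_of_pow hT hR hS h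
  obtain ⟨m, rfl⟩ := hy
  have h2 : 2 ≤ k := by
    rcases Nat.lt_or_ge k 2 with h' | h'
    · interval_cases k <;> omega
    · exact h'
  have h3 : k < x + 1 := by
    have h4 : (y * m + 1) * k < (y * m + 1) * (x + 1) := by
      rw [← hk]
      have : y + 1 < y * m + 1 := by omega
      calc (x + 1) * (y + 1) < (x + 1) * (y * m + 1) := Nat.mul_lt_mul_of_pos_left this (by omega)
        _ = (y * m + 1) * (x + 1) := mul_comm _ _
    exact Nat.lt_of_mul_lt_mul_left h4
  have h5 : ((x : ℤ) + 1) - k = y * ((m : ℤ) * k - (x + 1)) := by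
    have : ((x : ℤ) + 1) * (y + 1) = (y * m + 1) * k := by exact_mod_cast hk
    linear_combination this
  have h6 : (0 : ℤ) < (x : ℤ) + 1 - k := by
    have : (k : ℤ) < x + 1 := by exact_mod_cast h3
    linarith
  have h7 : (x : ℤ) + 1 - k < y := by
    have h8 : (2 : ℤ) ≤ k := by exact_mod_cast h2
    have h9 : (x : ℤ) ≤ y := by exact_mod_cast hxy
    linarith
  have hy0 : (0 : ℤ) < y := by
    have : (2 : ℤ) ≤ x := by exact_mod_cast hx
    have h9 : (x : ℤ) ≤ y := by exact_mod_cast hxy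
    linarith
  rw [h5] at h6 h7
  have h10 : (0 : ℤ) < (m : ℤ) * k - (x + 1) := (mul_pos_iff_of_pos_left hy0).1 h6
  nlinarith

theorem caseA {x y z R S T : ℕ} (hx : 2 ≤ x) (hy : 2 ≤ y) (hxz : x ∣ z) (hyz : y ∣ z)
    (hlty : y < z) (hz : z ≤ x * y) (hT : 0 < T) (hS : 0 < S) (hRT : T ≤ R) (hST : S < T)
    (h : (z + 1) ^ T = (x + 1) ^ R * (y + 1) ^ S) : False := by
  obtain ⟨q, r, hq1, hrT, rfl⟩ : ∃ q r : ℕ, 1 ≤ q ∧ r < T ∧ R = q * T + r :=
    ⟨R / T, R % T, (Nat.one_le_div_iff hT).2 hRT, Nat.mod_lt _ hT, by rw [mul_comm]; exact (Nat.div_add_mod R T).symm⟩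
  have hdiv : (x + 1) ^ q ∣ z + 1 := by
    have h1 : ((x + 1) ^ q) ^ T ∣ (z + 1) ^ T := by
      rw [h, ← pow_mul, pow_add, mul_assoc]
      exact dvd_mul_right _ _
    exact (Nat.pow_dvd_pow_iff hT.ne').1 h1
  obtain ⟨W, hW⟩ := hdiv
  have hWT : W ^ T = (x + 1) ^ r * (y + 1) ^ S := by
    rw [hW, mul_pow, ← pow_mul, pow_add, mul_assoc] at h
    exact Nat.eq_of_mul_eq_mul_left (pow_pos (Nat.succ_pos x) _) h
  have hW1 : 1 < W := by
    by_contra hcon
    have h1 : W ^ T ≤ 1 := pow_le_one' (M := ℕ) (by omega) T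
    have h2 : 1 < (y + 1) ^ S := Nat.one_lt_pow hS.ne' (by omega)
    have h3 : 1 ≤ (x + 1) ^ r := Nat.one_le_pow _ _ (by omega)
    rw [hWT] at h1
    nlinarith
  have hWmod : W ≡ 1 [MOD x] := by
    have h1 : (x + 1) ^ q ≡ 1 [MOD x] := by
      have : x + 1 ≡ 1 [MOD x] := by simp [Nat.ModEq]
      simpa using this.pow q
    have h2 : z + 1 ≡ 1 [MOD x] := by
      have : z ≡ 0 [MOD x] := (Nat.modEq_zero_iff_dvd).2 hxz
      simpa using this.add_right 1
    have h3 : (x + 1) ^ q * W ≡ 1 * W [MOD x] := h1.mul_right W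
    rw [← hW, one_mul] at h3
    exact (h3.symm.trans h2)
  obtain ⟨H, X2, hcop, hH, hX2⟩ := Nat.exists_coprime W (x + 1)
  set G := Nat.gcd W (x + 1) with hG
  have hGpos : 0 < G := Nat.gcd_pos_of_pos_right _ (Nat.succ_pos x)
  have hHY : H ∣ y + 1 := by
    have h1 : W ∣ (x + 1) * (y + 1) := dvd_mul_of_pow hT hrT.le hST.le hWT
    rw [hX2] at h1
    nth_rewrite 1 [hH] at h1
    have h2 : H * G ∣ X2 * (y + 1) * G := by
      have : X2 * G * (y + 1) = X2 * (y + 1) * G := by ring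
      rw [← this]
      exact h1
    exact hcop.dvd_of_dvd_mul_left (Nat.dvd_of_mul_dvd_mul_right hGpos h2)
  have hHZ : H ∣ z + 1 := by
    rw [hW]
    exact Dvd.dvd.mul_left (by rw [hH]; exact dvd_mul_right _ _) _
  obtain ⟨k, hk⟩ := hyz
  have hk2 : 2 ≤ k := by
    rcases Nat.lt_or_ge k 2 with h' | h'
    · interval_cases k <;> omega
    · exact h'
  have hkx : k ≤ x := by
    have : y * k ≤ y * x := by rw [← hk, mul_comm y x]; exact hz
    exact Nat.le_of_mul_le_mul_left this (by omega)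
  have hkey : (y + 1) * k = (z + 1) + (k - 1) := by
    rw [hk]
    have : (y + 1) * k = y * k + k := by ring
    omega
  have hHk : H ∣ k - 1 := (Nat.dvd_add_right hHZ).1 (hkey ▸ Dvd.dvd.mul_right hHY k)
  have hHx : H < x := by
    have := Nat.le_of_dvd (by omega) hHk
    omega
  have hHpos : 0 < H := Nat.pos_of_ne_zero fun h0 => by
    rw [h0, zero_mul] at hH
    omega
  have hmod : H ≡ X2 [MOD x] := by
    have h1 : H * G ≡ X2 * G [MOD x] := by
      rw [← hH, ← hX2]
      have : x + 1 ≡ 1 [MOD x] := by simp [Nat.ModEq]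
      exact hWmod.trans this.symm
    have h2 : Nat.gcd x G = 1 := by
      have h3 : G ∣ x + 1 := Nat.gcd_dvd_right _ _
      have h4 : Nat.Coprime x (x + 1) := by simp
      exact Nat.Coprime.coprime_dvd_right h3 h4
    exact Nat.ModEq.cancel_right_of_coprime h2 h1
  have hG2 : 2 ≤ G := by
    by_contra hcon
    have hG1 : G = 1 := by omega
    rw [hG1, mul_one] at hX2 hH
    have h1 : H ≡ 1 [MOD x] := by rw [← hH]; exact hWmod
    have h2 : H = 1 := Nat.ModEq.eq_of_lt_of_lt h1 hHx (by omega)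
    omega
  have hX2x : X2 < x := by
    have h1 : X2 * 2 ≤ X2 * G := Nat.mul_le_mul_left _ hG2
    omega
  have hHX2 : H = X2 := Nat.ModEq.eq_of_lt_of_lt hmod hHx hX2x
  have hH1 : H = 1 := by
    rw [← hHX2] at hcop
    exact (Nat.coprime_self H).1 hcop
  have hWX : W = x + 1 := by
    rw [hX2, hH, hHX2]
  have hpow : (x + 1) ^ (T - r) = (y + 1) ^ S := by
    rw [hWX] at hWT
    have h1 : (x + 1) ^ r * (x + 1) ^ (T - r) = (x + 1) ^ r * (y + 1) ^ S := by
      rw [← pow_add, Nat.add_sub_cancel' hrT.le]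
      exact hWT
    exact Nat.eq_of_mul_eq_mul_left (pow_pos (Nat.succ_pos x) _) h1
  have hZ : z + 1 = (x + 1) ^ (q + 1) := by
    rw [hW, hWX, pow_succ]
  have hYZ : y + 1 ∣ z + 1 := by
    have h1 : (x + 1) ^ (T - r) < (x + 1) ^ ((q + 1) * S) := by
      rw [hpow, pow_mul, ← hZ]
      exact Nat.pow_lt_pow_left (by omega) hS.ne'
    have h2 : T - r < (q + 1) * S := (Nat.pow_lt_pow_iff_right (by omega)).1 h1
    have h3 : (y + 1) ^ S ∣ (z + 1) ^ S := by
      rw [← hpow, hZ, ← pow_mul]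
      exact pow_dvd_pow _ h2.le
    exact (Nat.pow_dvd_pow_iff hS.ne').1 h3
  have hYk : y + 1 ∣ k - 1 := (Nat.dvd_add_right hYZ).1 (hkey ▸ dvd_mul_right _ _)
  have h8 : y + 1 ≤ k - 1 := Nat.le_of_dvd (by omega) hYk
  have h9 : (x + 1) * (x + 1) ≤ z + 1 := by
    rw [hZ, ← pow_two]
    exact Nat.pow_le_pow_right (by omega) (by omega)
  have h10 : y + 2 ≤ x := by omega
  nlinarith

/-- the first half: `c + 1` is not alone -/
theorem main1 {x y z : ℕ} (hx : 2 ≤ x) (hy : 2 ≤ y) (hxz : x ∣ z) (hyz : y ∣ z) (hltx : x < z) (hlty : y < z)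
    (hz : z ≤ x * y) (T R S : ℕ) (hT : 0 < T) (hR : 0 < R) (hS : 0 < S)
    (h : (z + 1) ^ T = (x + 1) ^ R * (y + 1) ^ S) : False := by
  have hlt : z + 1 < (x + 1) * (y + 1) := by nlinarith
  have hsw : (z + 1) ^ T = (y + 1) ^ S * (x + 1) ^ R := by rw [h, mul_comm]
  have hlt' : z + 1 < (y + 1) * (x + 1) := by rw [mul_comm]; exact hlt
  have hz' : z ≤ y * x := by rw [mul_comm]; exact hz
  rcases Nat.lt_or_ge R T with hRT | hRT
  · rcases Nat.lt_or_ge S T with hST | hST
    · rcases le_total x y with hxy | hxy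
      · exact caseB hx hxy hyz hlty hT hRT.le hST.le hlt h
      · exact caseB hy hxy hxz hltx hT hST.le hRT.le hlt' hsw
    · exact caseA hy hx hyz hxz hltx hz' hT hR hST hRT hsw
  · rcases Nat.lt_or_ge S T with hST | hST
    · exact caseA hx hy hxz hyz hlty hz hT hS hRT hST h
    · have h1 : ((x + 1) * (y + 1)) ^ T ≤ (z + 1) ^ T := by
        rw [h, mul_pow]
        exact Nat.mul_le_mul (Nat.pow_le_pow_right (by omega) hRT) (Nat.pow_le_pow_right (by omega) hST)
      have h2 := (Nat.pow_le_pow_iff_left hT.ne').1 h1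
      omega

theorem dcaseB {x y z R S T : ℕ} (hx : 2 ≤ x) (hxy : x ≤ y) (hy : y + 1 ∣ z + 1) (hyz : y < z)
    (hT : 0 < T) (hR : R ≤ T) (hS : S ≤ T) (h : z ^ T = x ^ R * y ^ S) : False := by
  obtain ⟨k, hk⟩ := dvd_mul_of_pow hT hR hS h
  obtain ⟨m, hm⟩ := hy
  have h1 : 1 ≤ k := by
    rcases Nat.eq_zero_or_pos k with h' | h'
    · rw [h', mul_zero] at hk
      nlinarith
    · exact h'
  have h3 : k < x := by
    have h4 : z * k < z * x := by
      rw [← hk, mul_comm z x]
      exact Nat.mul_lt_mul_of_pos_left hyz (by omega)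
    exact Nat.lt_of_mul_lt_mul_left h4
  have h5 : (x : ℤ) - k = (y + 1) * (x - (m : ℤ) * k) := by
    have e1 : (x : ℤ) * y = z * k := by exact_mod_cast hk
    have e2 : (z : ℤ) + 1 = (y + 1) * m := by exact_mod_cast hm
    linear_combination -e1 - k * e2
  have h6 : (0 : ℤ) < (x : ℤ) - k := by
    have : (k : ℤ) < x := by exact_mod_cast h3
    linarith
  have h7 : (x : ℤ) - k < y + 1 := by
    have h8 : (1 : ℤ) ≤ k := by exact_mod_cast h1
    have h9 : (x : ℤ) ≤ y := by exact_mod_cast hxy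
    linarith
  have hy0 : (0 : ℤ) < y + 1 := by positivity
  rw [h5] at h6 h7
  have h10 : (0 : ℤ) < (x - (m : ℤ) * k) := (mul_pos_iff_of_pos_left hy0).1 h6
  nlinarith

theorem dcaseA {x y z R S T : ℕ} (hx : 2 ≤ x) (hy : 2 ≤ y) (hne : x ≠ y) (hxz : x + 1 ∣ z + 1) (hyz : y + 1 ∣ z + 1)
    (hlty : y < z) (hz : z + 1 ≤ (x + 1) * (y + 1)) (hor : ¬ Nat.Coprime x y ∨ y ≤ x ^ 3)
    (hT : 0 < T) (hS : 0 < S) (hRT : T ≤ R) (hST : S < T)
    (h : z ^ T = x ^ R * y ^ S) : False := by
  obtain ⟨q, r, hq1, hrT, rfl⟩ : ∃ q r : ℕ, 1 ≤ q ∧ r < T ∧ R = q * T + r :=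
    ⟨R / T, R % T, (Nat.one_le_div_iff hT).2 hRT, Nat.mod_lt _ hT, by rw [mul_comm]; exact (Nat.div_add_mod R T).symm⟩
  have hdiv : x ^ q ∣ z := by
    have h1 : (x ^ q) ^ T ∣ z ^ T := by
      rw [h, ← pow_mul, pow_add, mul_assoc]
      exact dvd_mul_right _ _
    exact (Nat.pow_dvd_pow_iff hT.ne').1 h1
  obtain ⟨W, hW⟩ := hdiv
  have hx0 : 0 < x := by omega
  have hWT : W ^ T = x ^ r * y ^ S := by
    rw [hW, mul_pow, ← pow_mul, pow_add, mul_assoc] at h
    exact Nat.eq_of_mul_eq_mul_left (pow_pos hx0 _) h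
  have hW1 : 1 < W := by
    by_contra hcon
    have h1 : W ^ T ≤ 1 := pow_le_one' (M := ℕ) (by omega) T
    have h2 : 1 < y ^ S := Nat.one_lt_pow hS.ne' (by omega)
    have h3 : 1 ≤ x ^ r := Nat.one_le_pow _ _ (by omega)
    rw [hWT] at h1
    nlinarith
  obtain ⟨H, X2, hcop, hH, hX2⟩ := Nat.exists_coprime W x
  set G := Nat.gcd W x with hG
  have hGpos : 0 < G := Nat.gcd_pos_of_pos_right _ hx0
  have hHy : H ∣ y := by
    have h1 : W ∣ x * y := dvd_mul_of_pow hT hrT.le hST.le hWT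
    rw [hX2] at h1
    nth_rewrite 1 [hH] at h1
    have h2 : H * G ∣ X2 * y * G := by
      have : X2 * G * y = X2 * y * G := by ring
      rw [← this]
      exact h1
    exact hcop.dvd_of_dvd_mul_left (Nat.dvd_of_mul_dvd_mul_right hGpos h2)
  have hHz : H ∣ z := by
    rw [hW]
    exact Dvd.dvd.mul_left (by rw [hH]; exact dvd_mul_right _ _) _
  obtain ⟨k, hk⟩ := hyz
  have hk2 : 2 ≤ k := by
    rcases Nat.lt_or_ge k 2 with h' | h'
    · interval_cases k <;> omega
    · exact h'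
  have hkx : k ≤ x + 1 := by
    have : (y + 1) * k ≤ (y + 1) * (x + 1) := by rw [← hk, mul_comm (y + 1) (x + 1)]; exact hz
    exact Nat.le_of_mul_le_mul_left this (by omega)
  have hkey : z = y * k + (k - 1) := by
    have : (y + 1) * k = y * k + k := by ring
    omega
  have hHk : H ∣ k - 1 := (Nat.dvd_add_right (Dvd.dvd.mul_right hHy k)).1 (hkey ▸ hHz)
  have hHx : H ≤ x := by
    have := Nat.le_of_dvd (by omega) hHk
    omega
  have hHpos : 0 < H := Nat.pos_of_ne_zero fun h0 => by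
    rw [h0, zero_mul] at hH
    omega
  have hX2pos : 0 < X2 := Nat.pos_of_ne_zero fun h0 => by
    rw [h0, zero_mul] at hX2
    omega
  have hX2x : X2 ≤ x := by
    have : X2 * 1 ≤ X2 * G := Nat.mul_le_mul_left _ hGpos
    omega
  -- the congruence modulo x + 1
  have hmod : ((x : ℤ) + 1) ∣ (-1) ^ q * H - X2 := by
    have h1 : ((x : ℤ) + 1) ∣ (x : ℤ) ^ q - (-1) ^ q := by
      have := sub_dvd_pow_sub_pow (x : ℤ) (-1) q
      simpa using this
    have h2 : ((x : ℤ) + 1) ∣ (z : ℤ) + 1 := by exact_mod_cast hxz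
    have h3 : ((x : ℤ) + 1) ∣ G * ((-1) ^ q * H - X2) := by
      have e0 : (W : ℤ) = H * G := by exact_mod_cast hH
      have e1 : (z : ℤ) = x ^ q * (H * G) := by
        rw [← e0]
        exact_mod_cast hW
      have e2 : (x : ℤ) = X2 * G := by exact_mod_cast hX2
      have e3 : (G : ℤ) * ((-1) ^ q * H - X2) = ((z : ℤ) + 1) - ((x : ℤ) ^ q - (-1) ^ q) * (H * G) - (x + 1) := by
        rw [e1]
        linear_combination e2
      rw [e3]
      exact dvd_sub (dvd_sub h2 (Dvd.dvd.mul_right h1 _)) dvd_rfl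
    have h4 : IsCoprime ((x : ℤ) + 1) G := by
      have h5 : (G : ℤ) ∣ x := by exact_mod_cast (Nat.gcd_dvd_right W x)
      have h6 : IsCoprime ((x : ℤ) + 1) x := ⟨1, -1, by ring⟩
      exact h6.of_isCoprime_of_dvd_right h5
    exact h4.dvd_of_dvd_mul_left h3
  rcases Nat.even_or_odd q with hq | hq
  · rw [hq.neg_one_pow, one_mul] at hmod
    have hHX2 : H = X2 := by
      have h1 : (H : ℤ) - X2 = 0 := by
        apply Int.eq_zero_of_abs_lt_dvd hmod
        rw [abs_lt]
        constructor <;> push_cast <;> omega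
      omega
    have hH1 : H = 1 := by
      rw [← hHX2] at hcop
      exact (Nat.coprime_self H).1 hcop
    have hWX : W = x := by
      rw [hX2, hH, hHX2]
    have hpow : x ^ (T - r) = y ^ S := by
      rw [hWX] at hWT
      have h1 : x ^ r * x ^ (T - r) = x ^ r * y ^ S := by
        rw [← pow_add, Nat.add_sub_cancel' hrT.le]
        exact hWT
      exact Nat.eq_of_mul_eq_mul_left (pow_pos hx0 _) h1
    have hZ : z = x ^ (q + 1) := by
      rw [hW, hWX, pow_succ]
    have hyz' : y ∣ z := by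
      have h1 : x ^ (T - r) < x ^ ((q + 1) * S) := by
        rw [hpow, pow_mul, ← hZ]
        exact Nat.pow_lt_pow_left (by omega) hS.ne'
      have h2 : T - r < (q + 1) * S := (Nat.pow_lt_pow_iff_right (by omega)).1 h1
      have h3 : y ^ S ∣ z ^ S := by
        rw [← hpow, hZ, ← pow_mul]
        exact pow_dvd_pow _ h2.le
      exact (Nat.pow_dvd_pow_iff hS.ne').1 h3
    have hyk : y ∣ k - 1 := (Nat.dvd_add_right (dvd_mul_right y k)).1 (hkey ▸ hyz')
    have h8 : y ≤ k - 1 := Nat.le_of_dvd (by omega) hyk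
    have hq2 : 2 ≤ q := by
      rcases hq with ⟨t, ht⟩
      omega
    have h9 : x * x * x ≤ z := by
      rw [hZ]
      calc x * x * x = x ^ 3 := by ring
        _ ≤ x ^ (q + 1) := Nat.pow_le_pow_right hx0 (by omega)
    have h10 : y ≤ x := by omega
    have h11 : z ≤ x * y + x + y := by nlinarith
    have h12 : y < x := lt_of_le_of_ne h10 (Ne.symm hne)
    nlinarith
  · rw [hq.neg_one_pow] at hmod
    have hsum : H + X2 = x + 1 := by
      have h1 : ((x : ℤ) + 1) ∣ (H : ℤ) + X2 := by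
        have h2 := (dvd_neg (a := (x : ℤ) + 1)).2 hmod
        have h3 : -((-1 : ℤ) * H - X2) = H + X2 := by ring
        rwa [h3] at h2
      have h4 : x + 1 ∣ H + X2 := by exact_mod_cast h1
      obtain ⟨c, hc⟩ := h4
      have hc1 : c = 1 := by
        rcases Nat.lt_trichotomy c 1 with h' | h' | h'
        · have : c = 0 := by omega
          rw [this] at hc
          omega
        · exact h'
        · have : (x + 1) * 2 ≤ (x + 1) * c := Nat.mul_le_mul_left _ h'
          omega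
      rw [hc, hc1, mul_one]
    have hG2 : 2 ≤ G := by
      by_contra hcon
      have hG1 : G = 1 := by omega
      rw [hG1, mul_one] at hX2 hH
      omega
    have h2X2 : X2 * 2 ≤ x := by
      have : X2 * 2 ≤ X2 * G := Nat.mul_le_mul_left _ hG2
      omega
    have hkH : k - 1 = H := by
      obtain ⟨c, hc⟩ := hHk
      have hc1 : c = 1 := by
        rcases Nat.lt_trichotomy c 1 with h' | h' | h'
        · have : c = 0 := by omega
          rw [this] at hc
          omega
        · exact h'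
        · have : H * 2 ≤ H * c := Nat.mul_le_mul_left _ h'
          omega
      rw [hc, hc1, mul_one]
    obtain ⟨y1, hy1⟩ := hHy
    have heq : x ^ q * G = y1 * (H + 1) + 1 := by
      have h1 : H * (x ^ q * G) = H * (y1 * (H + 1) + 1) := by
        have e1 : z = H * (x ^ q * G) := by
          rw [hW]
          nth_rewrite 1 [hH]
          ring
        have e2 : z = H * (y1 * (H + 1) + 1) := by
          have : k = H + 1 := by omega
          rw [hkey, this, hy1]
          simp only [Nat.add_sub_cancel]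
          ring
        rw [← e1, ← e2]
      exact Nat.eq_of_mul_eq_mul_left hHpos h1
    have hrel : H ^ (T - S) * G ^ (T - r) = X2 ^ r * y1 ^ S := by
      have h1 : (H * G) ^ T = (X2 * G) ^ r * (H * y1) ^ S := by
        rw [← hH, ← hX2, ← hy1]
        exact hWT
      have h2 : H ^ S * G ^ r * (H ^ (T - S) * G ^ (T - r)) = H ^ S * G ^ r * (X2 ^ r * y1 ^ S) := by
        have e1 : H ^ S * G ^ r * (H ^ (T - S) * G ^ (T - r)) = (H ^ S * H ^ (T - S)) * (G ^ r * G ^ (T - r)) := by ring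
        rw [e1, ← pow_add, ← pow_add, Nat.add_sub_cancel' hST.le, Nat.add_sub_cancel' hrT.le, ← mul_pow, h1]
        ring
      exact Nat.eq_of_mul_eq_mul_left (by positivity) h2
    rcases hor with hgcd | hyx
    · -- a common prime divisor of x and y
      obtain ⟨p, hp, hpx, hpy⟩ := Nat.Prime.not_coprime_iff_dvd.1 hgcd
      have hpy1 : ¬ p ∣ y1 := by
        intro h1
        have h2 : p ∣ y1 * (H + 1) + 1 := by
          rw [← heq]
          exact Dvd.dvd.mul_right (dvd_pow hpx (by omega)) _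
        have h3 : p ∣ 1 := (Nat.dvd_add_right (Dvd.dvd.mul_right h1 _)).1 h2
        exact hp.one_lt.ne' (Nat.dvd_one.1 h3)
      have hpH : p ∣ H := by
        rw [hy1] at hpy
        exact (hp.dvd_mul.1 hpy).resolve_right hpy1
      have h1 : p ∣ X2 ^ r * y1 ^ S := by
        rw [← hrel]
        exact Dvd.dvd.mul_right (dvd_pow hpH (by omega)) _
      rcases hp.dvd_mul.1 h1 with h2 | h2
      · have h3 : p ∣ X2 := hp.dvd_of_dvd_pow h2
        have h4 : p ∣ 1 := hcop ▸ Nat.dvd_gcd hpH h3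
        exact hp.one_lt.ne' (Nat.dvd_one.1 h4)
      · exact hpy1 (hp.dvd_of_dvd_pow h2)
    · have hX21 : X2 ≠ 1 := by
        intro h1
        rw [h1, one_mul] at hX2
        obtain ⟨p, hp, hpx⟩ := Nat.exists_prime_and_dvd (by omega : x ≠ 1)
        have hpG : p ∣ G := by
          rw [← hX2]
          exact hpx
        have h2 : p ∣ X2 ^ r * y1 ^ S := by
          rw [← hrel]
          exact Dvd.dvd.mul_left (dvd_pow hpG (by omega)) _
        rw [h1, one_pow, one_mul] at h2
        have h3 : p ∣ y1 := hp.dvd_of_dvd_pow h2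
        have h4 : p ∣ y1 * (H + 1) + 1 := by
          rw [← heq]
          exact Dvd.dvd.mul_left hpG _
        have h5 : p ∣ 1 := (Nat.dvd_add_right (Dvd.dvd.mul_right h3 _)).1 h4
        exact hp.one_lt.ne' (Nat.dvd_one.1 h5)
      have hX22 : X2 ≠ 2 := by
        intro h1
        have h2 : 2 ∣ x := ⟨G, by rw [← h1]; exact hX2⟩
        have h3 : H + 1 = x := by omega
        have h4 : 2 ∣ y1 * (H + 1) + 1 := by
          rw [← heq]
          exact Dvd.dvd.mul_right (dvd_pow h2 (by omega)) _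
        have h5 : 2 ∣ 1 := (Nat.dvd_add_right (Dvd.dvd.mul_left (by rw [h3]; exact h2) _)).1 h4
        omega
      have hX23 : 3 ≤ X2 := by omega
      rcases Nat.lt_or_ge q 2 with hq2 | hq2
      · have hq1' : q = 1 := by omega
        rw [hq1', pow_one] at heq
        have e1 : (x : ℤ) = X2 * G := by exact_mod_cast hX2
        have e2 : (H : ℤ) + X2 = x + 1 := by exact_mod_cast hsum
        have e3 : (x : ℤ) * G = y1 * (H + 1) + 1 := by exact_mod_cast heq
        have e4 : (X2 : ℤ) - 2 * G - 3 = (H + 1) * ((y1 : ℤ) - G - 1) := by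
          have : (H : ℤ) = x + 1 - X2 := by linarith
          rw [this] at e3 ⊢
          linear_combination e3 + e1
        have g1 : (2 : ℤ) ≤ G := by exact_mod_cast hG2
        have g2 : (3 : ℤ) ≤ X2 := by exact_mod_cast hX23
        have g3 : (X2 : ℤ) * 2 ≤ x := by exact_mod_cast h2X2
        have g4 : (3 : ℤ) * G ≤ x := by
          rw [e1]
          nlinarith
        have e5 : (X2 : ℤ) - 2 * G - 3 = 0 := by
          apply Int.eq_zero_of_abs_lt_dvd (m := (H : ℤ) + 1) ⟨_, e4⟩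
          rw [abs_lt]
          constructor <;> linarith
        have e6 : (y1 : ℤ) = G + 1 := by
          rw [e5] at e4
          have h0 : (H : ℤ) + 1 ≠ 0 := by positivity
          have := (mul_eq_zero.1 e4.symm).resolve_left h0
          linarith
        have hyG : y1 = G + 1 := by exact_mod_cast e6
        have hdv : y1 ∣ H + 1 := by
          have : ((y1 : ℕ) : ℤ) ∣ ((H + 1 : ℕ) : ℤ) := by
            refine ⟨2 * G - 1, ?_⟩
            push_cast
            rw [e6]
            have h7 : (X2 : ℤ) = 2 * G + 3 := by linarith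
            rw [h7] at e1 e2
            linear_combination e2 + e1
          exact_mod_cast this
        have hc1 : Nat.Coprime H y1 := Nat.Coprime.coprime_dvd_right hdv (by simp)
        have hc2 : Nat.Coprime H (X2 ^ r * y1 ^ S) := (hcop.pow_right r).mul_right (hc1.pow_right S)
        have hdv2 : H ∣ X2 ^ r * y1 ^ S := by
          rw [← hrel]
          exact Dvd.dvd.mul_right (dvd_pow_self _ (by omega)) _
        have := Nat.Coprime.eq_one_of_dvd hc2 hdv2
        omega
      · have hq3 : 3 ≤ q := by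
          rcases hq with ⟨t, ht⟩
          omega
        have h1 : x ^ 3 * (x + 2) ≤ z := by
          rw [hW, hH]
          have h2 : x ^ 3 ≤ x ^ q := Nat.pow_le_pow_right hx0 hq3
          have h3 : x + 2 ≤ H * G := by
            have : H * 2 ≤ H * G := Nat.mul_le_mul_left _ hG2
            omega
          exact Nat.mul_le_mul h2 h3
        have h2 : (x + 1) * (y + 1) ≤ (x + 1) * (x ^ 3 + 1) := Nat.mul_le_mul_left _ (by omega)
        have h3 : x < x ^ 3 := by
          have : x * (x * x) = x ^ 3 := by ring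
          nlinarith
        have h4 : x ^ 3 * (x + 2) = x ^ 3 * x + 2 * x ^ 3 := by ring
        have h5 : (x + 1) * (x ^ 3 + 1) = x ^ 3 * x + x ^ 3 + x + 1 := by ring
        omega

/-- the second half: `c` is not alone -/
theorem main2 {x y z : ℕ} (hx : 2 ≤ x) (hy : 2 ≤ y) (hxy : x ≠ y) (hxz : x + 1 ∣ z + 1) (hyz : y + 1 ∣ z + 1) (hltx : x < z)
    (hlty : y < z) (hz : z + 1 ≤ (x + 1) * (y + 1))
    (hc : ¬ Nat.Coprime x y ∨ z + 1 = (x + 1) * (y + 1) ∨ (x ≤ y ^ 3 ∧ y ≤ x ^ 3)) (T R S : ℕ) (hT : 0 < T)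
    (hR : 0 < R) (hS : 0 < S) (h : z ^ T = x ^ R * y ^ S) : False := by
  have hsw : z ^ T = y ^ S * x ^ R := by rw [h, mul_comm]
  have hz' : z + 1 ≤ (y + 1) * (x + 1) := by rw [mul_comm]; exact hz
  have hor : (¬ Nat.Coprime x y ∨ y ≤ x ^ 3) ∧ (¬ Nat.Coprime y x ∨ x ≤ y ^ 3) := by
    by_cases hcop : Nat.Coprime x y
    · rcases hc with hc | hc | hc
      · exact absurd hcop hc
      · exfalso
        have hz1 : z = x * (y + 1) + y := by nlinarith
        have h3 : x ∣ z ^ T := by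
          rw [h]
          exact Dvd.dvd.mul_right (dvd_pow_self _ hR.ne') _
        have h4 : Nat.Coprime x z := by
          rw [hz1, Nat.coprime_mul_left_add_right]
          exact hcop
        have := Nat.Coprime.eq_one_of_dvd (h4.pow_right T) h3
        omega
      · exact ⟨Or.inr hc.2, Or.inr hc.1⟩
    · exact ⟨Or.inl hcop, Or.inl fun h1 => hcop h1.symm⟩
  rcases Nat.lt_or_ge R T with hRT | hRT
  · rcases Nat.lt_or_ge S T with hST | hST
    · rcases le_total x y with hle | hle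
      · exact dcaseB hx hle hyz hlty hT hRT.le hST.le h
      · exact dcaseB hy hle hxz hltx hT hST.le hRT.le hsw
    · exact dcaseA hy hx hxy.symm hyz hxz hltx hz' hor.2 hT hR hST hRT hsw
  · rcases Nat.lt_or_ge S T with hST | hST
    · exact dcaseA hx hy hxy hxz hyz hlty hz hor.1 hT hS hRT hST h
    · have h1 : (x * y) ^ T ∣ z ^ T := by
        rw [h, mul_pow]
        exact mul_dvd_mul (pow_dvd_pow _ hRT) (pow_dvd_pow _ hST)
      obtain ⟨m, hm⟩ := (Nat.pow_dvd_pow_iff hT.ne').1 h1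
      have hxy3 : x + y < x * y := by
        rcases Nat.lt_or_gt_of_ne hxy with h' | h' <;> nlinarith
      have hm1 : m = 1 := by
        rcases Nat.lt_trichotomy m 1 with h' | h' | h'
        · have : m = 0 := by omega
          rw [this] at hm
          omega
        · exact h'
        · have : x * y * 2 ≤ x * y * m := Nat.mul_le_mul_left _ h'
          nlinarith
      rw [hm1, mul_one] at hm
      have h5 : x + 1 ∣ y - 1 := by
        have e : y * (x + 1) = (z + 1) + (y - 1) := by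
          rw [hm]
          have : y * (x + 1) = x * y + y := by ring
          omega
        exact (Nat.dvd_add_right hxz).1 (e ▸ dvd_mul_left _ _)
      have h6 : y + 1 ∣ x - 1 := by
        have e : x * (y + 1) = (z + 1) + (x - 1) := by
          rw [hm]
          have : x * (y + 1) = x * y + x := by ring
          omega
        exact (Nat.dvd_add_right hyz).1 (e ▸ dvd_mul_left _ _)
      have h7 := Nat.le_of_dvd (by omega) h5
      have h8 := Nat.le_of_dvd (by omega) h6
      omega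

theorem nat_rel {u v w E F K : ℕ} (hu : 2 ≤ u) (hE : E ≠ 0) (h : (u : ℚ) ^ E * (v : ℚ) ^ F * (w : ℚ) ^ K = 1) : False := by
  have h1 : u ^ E * v ^ F * w ^ K = 1 := by exact_mod_cast h
  have h2 : u ^ E = 1 := Nat.eq_one_of_mul_eq_one_right (Nat.eq_one_of_mul_eq_one_right h1)
  have h3 : 1 < u ^ E := Nat.one_lt_pow hE (by omega)
  omega

/-- in a relation of a 3-multiplicatively dependent triple exactly one of the three elements is alone on one side -/
theorem trichotomy {u v w : ℕ} (hu : 2 ≤ u) (hv : 2 ≤ v) (hw : 2 ≤ w) (h : IsDependentTriple u v w) :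
    Alone u v w ∨ Alone v u w ∨ Alone w u v := by
  obtain ⟨⟨e, f, g, hne, hrel⟩, huv, huw, hvw⟩ := h
  have he : e ≠ 0 := fun h0 => hvw ⟨f, g, fun h1 => hne ⟨h0, h1.1, h1.2⟩, by simpa [h0] using hrel⟩
  have hf : f ≠ 0 := fun h0 => huw ⟨e, g, fun h1 => hne ⟨h1.1, h0, h1.2⟩, by simpa [h0] using hrel⟩
  have hg : g ≠ 0 := fun h0 => huv ⟨e, f, fun h1 => hne ⟨h1.1, h1.2, h0⟩, by simpa [h0] using hrel⟩
  have hu0 : (u : ℚ) ≠ 0 := by exact_mod_cast (by omega : u ≠ 0)
  have hv0 : (v : ℚ) ≠ 0 := by exact_mod_cast (by omega : v ≠ 0)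
  have hw0 : (w : ℚ) ≠ 0 := by exact_mod_cast (by omega : w ≠ 0)
  obtain ⟨E, hE⟩ := e.eq_nat_or_neg
  obtain ⟨F, hF⟩ := f.eq_nat_or_neg
  obtain ⟨K, hK⟩ := g.eq_nat_or_neg
  have hE0 : E ≠ 0 := fun h0 => he (by rcases hE with hE | hE <;> simp [hE, h0])
  have hF0 : F ≠ 0 := fun h0 => hf (by rcases hF with hF | hF <;> simp [hF, h0])
  have hK0 : K ≠ 0 := fun h0 => hg (by rcases hK with hK | hK <;> simp [hK, h0])
  have pE : (u : ℚ) ^ E ≠ 0 := pow_ne_zero _ hu0
  have pF : (v : ℚ) ^ F ≠ 0 := pow_ne_zero _ hv0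
  have pK : (w : ℚ) ^ K ≠ 0 := pow_ne_zero _ hw0
  have aloneU : (u : ℚ) ^ E = (v : ℚ) ^ F * (w : ℚ) ^ K → Alone u v w := fun h1 =>
    ⟨E, F, K, Nat.pos_of_ne_zero hE0, Nat.pos_of_ne_zero hF0, Nat.pos_of_ne_zero hK0, by exact_mod_cast h1⟩
  have aloneV : (v : ℚ) ^ F = (u : ℚ) ^ E * (w : ℚ) ^ K → Alone v u w := fun h1 =>
    ⟨F, E, K, Nat.pos_of_ne_zero hF0, Nat.pos_of_ne_zero hE0, Nat.pos_of_ne_zero hK0, by exact_mod_cast h1⟩
  have aloneW : (w : ℚ) ^ K = (u : ℚ) ^ E * (v : ℚ) ^ F → Alone w u v := fun h1 =>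
    ⟨K, E, F, Nat.pos_of_ne_zero hK0, Nat.pos_of_ne_zero hE0, Nat.pos_of_ne_zero hF0, by exact_mod_cast h1⟩
  rcases hE with rfl | rfl <;> rcases hF with rfl | rfl <;> rcases hK with rfl | rfl <;>
    simp only [zpow_neg, zpow_natCast] at hrel
  · exact (nat_rel hu hE0 hrel).elim
  · exact Or.inr (Or.inr (aloneW (by field_simp at hrel; exact hrel.symm)))
  · exact Or.inr (Or.inl (aloneV (by field_simp at hrel; exact hrel.symm)))
  · exact Or.inl (aloneU (by field_simp at hrel; exact hrel))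
  · exact Or.inl (aloneU (by field_simp at hrel; exact hrel.symm))
  · exact Or.inr (Or.inl (aloneV (by field_simp at hrel; exact hrel)))
  · exact Or.inr (Or.inr (aloneW (by field_simp at hrel; exact hrel)))
  · exact (nat_rel hu hE0 (by field_simp at hrel; exact hrel.symm)).elim

theorem result :
    -- `c + 1` is not alone in a relation between `a + 1`, `b + 1`, `c + 1`
    (∀ a b c : ℕ, 2 ≤ a → 2 ≤ b → a ∣ c → b ∣ c → a < c → b < c → c ≤ a * b →
      (¬ ∃ t r s : ℕ, 0 < t ∧ 0 < r ∧ 0 < s ∧ (c + 1) ^ t = (a + 1) ^ r * (b + 1) ^ s) ∧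
      (IsDependentTriple (a + 1) (b + 1) (c + 1) →
        Alone (a + 1) (b + 1) (c + 1) ∨ Alone (b + 1) (a + 1) (c + 1))) ∧
    -- `c` is not alone in a relation between `a`, `b`, `c`
    ∀ a b c : ℕ, 2 ≤ a → 2 ≤ b → a ≠ b → a + 1 ∣ c + 1 → b + 1 ∣ c + 1 → a < c → b < c → c + 1 ≤ (a + 1) * (b + 1) →
      (¬ Nat.Coprime a b ∨ c + 1 = (a + 1) * (b + 1) ∨ (a ≤ b ^ 3 ∧ b ≤ a ^ 3)) →
      (¬ ∃ t r s : ℕ, 0 < t ∧ 0 < r ∧ 0 < s ∧ c ^ t = a ^ r * b ^ s) ∧
      (IsDependentTriple a b c → Alone a b c ∨ Alone b a c) := by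
  refine ⟨fun a b c ha hb hac hbc hlta hltb hc => ?_, fun a b c ha hb hab hac hbc hlta hltb hc hco => ?_⟩
  · have h1 : ¬ ∃ t r s : ℕ, 0 < t ∧ 0 < r ∧ 0 < s ∧ (c + 1) ^ t = (a + 1) ^ r * (b + 1) ^ s := by
      rintro ⟨t, r, s, ht, hr, hs, h⟩
      exact main1 ha hb hac hbc hlta hltb hc t r s ht hr hs h
    refine ⟨h1, fun h => ?_⟩
    rcases trichotomy (by omega) (by omega) (by omega) h with h2 | h2 | h2
    · exact Or.inl h2
    · exact Or.inr h2
    · exact (h1 h2).elim
  · have h1 : ¬ ∃ t r s : ℕ, 0 < t ∧ 0 < r ∧ 0 < s ∧ c ^ t = a ^ r * b ^ s := by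
      rintro ⟨t, r, s, ht, hr, hs, h⟩
      exact main2 ha hb hab hac hbc hlta hltb hc hco t r s ht hr hs h
    refine ⟨h1, fun h => ?_⟩
    rcases trichotomy ha hb (by omega) h with h2 | h2 | h2
    · exact Or.inl h2
    · exact Or.inr h2
    · exact (h1 h2).elim

end Pool.Agent.Results.MP_e72373_nt.LargestNotIsolated
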